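import Pool.Agent.H79.BN.Targets
import Pool.Agent.H80.BL.M3
import Pool.Agent.H26.BL.B1

/-!
# Two parallel orbits with the same code (row W6)
-/

namespace Pool.Agent.H4.BN

open MeasureTheory Set Filter Topology Pool.Agent.H93.BL Pool.Agent.H79.BN

theorem w6 : T_W6 := by
  intro ι P i r q φ f g N hf0 hg0 hf hg hfg
  have h3 : T_M3 := Pool.Agent.H80.BL.M3.m3 Pool.Agent.H26.BL.B1.b1
  intro n
  induction n with
  | zero => intro _; rw [hf0, hg0]; exact ⟨rfl, by simp⟩
  | succ n ih =>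
    intro hn
    obtain ⟨ih1, ih2⟩ := ih (by omega)
    have sf := hf n (by omega)
    have sg := hg n (by omega)
    have e1 := hfg n (by omega)
    have e2 := hfg (n + 1) hn
    obtain ⟨α, gg, -, hα⟩ := h3 ι P (g n).1 (g (n + 1)).1
    have sf' : P.Step ((g n).1, (f n).2.1, (f n).2.2)
        ((g (n + 1)).1, (f (n + 1)).2.1, (f (n + 1)).2.2) := by
      rw [← e1, ← e2]; exact sf
    have af := hα _ _ _ _ sf'
    have ag := hα (g n).2.1 (g n).2.2 (g (n + 1)).2.1 (g (n + 1)).2.2 sg
    have cf : 0 < Real.cos (f n).2.2 := P.cos_pos_of_phase sf.1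
    have cg : 0 < Real.cos (g n).2.2 := P.cos_pos_of_phase sg.1
    have hang : (f (n + 1)).2.2 = (g (n + 1)).2.2 := by linarith [af.1, ag.1]
    refine ⟨hang, ?_⟩
    have pf : (f n).2.1 * Real.cos (g n).2.2 =
        gg (g (n + 1)).2.2 - (f (n + 1)).2.1 * Real.cos (g (n + 1)).2.2 := by
      have h := af.2
      rw [← af.1, eq_div_iff cf.ne', hang, ih1] at h
      exact h
    have pg : (g n).2.1 * Real.cos (g n).2.2 =
        gg (g (n + 1)).2.2 - (g (n + 1)).2.1 * Real.cos (g (n + 1)).2.2 := by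
      have h := ag.2
      rw [← ag.1, eq_div_iff cg.ne'] at h
      exact h
    rw [pow_succ]
    linear_combination (-1 : ℝ) * ih2 + pf - pg

end Pool.Agent.H4.BN
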