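import Pool.Agent.H79.BN.Targets

/-!
# The transversal coordinate of an orbit relative to another one with the same code (row W7)
-/

namespace Pool.Agent.H4.BN

open MeasureTheory Set Filter Topology Pool.Agent.H93.BL Pool.Agent.H79.BN

lemma cr_refl_refl {ι : Type} (P : Polygon ι) (k : ι) (v v' : ℂ) :
    cr (P.refl k v) (P.refl k v') = -cr v v' := by
  have h1 : (P.u k).re * (P.u k).re + (P.u k).im * (P.u k).im = 1 := by
    have := Complex.sq_norm (P.u k)
    rw [P.norm_u k, Complex.normSq_apply] at this; linarith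
  unfold Polygon.refl cr
  simp only [pow_two, Complex.mul_re, Complex.mul_im, Complex.conj_re, Complex.conj_im]
  linear_combination (-(v.re * v'.im - v.im * v'.re)) *
    ((P.u k).re * (P.u k).re + (P.u k).im * (P.u k).im + 1) * h1

theorem w7 : T_W7 := by
  intro ι P f g N hp hf hg hfg
  intro n
  induction n with
  | zero =>
    intro _
    refine ⟨by simp, ?_⟩
    rw [hp]; simp [plen, cr_zero_right]
  | succ n ih =>
    intro hn
    obtain ⟨ih1, ih2⟩ := ih (by omega)
    obtain ⟨-, -, t, ht, hfp, -, hfd⟩ := hf n (by omega)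
    obtain ⟨-, -, t', ht', hgp, -, hgd⟩ := hg n (by omega)
    have e2 := hfg (n + 1) hn
    rw [e2] at hfd
    have hpl : plen P g (n + 1) = plen P g n + t' := by
      unfold plen
      rw [Finset.sum_range_succ, hgp, dist_eq_norm]
      congr 1
      rw [sub_add_cancel_left, norm_neg, norm_mul, P.norm_dir, mul_one, Complex.norm_real,
        Real.norm_of_nonneg ht'.le]
    have h1 : cr (P.dir (f (n + 1))) (P.dir (g (n + 1))) =
        (-1) ^ (n + 1) * cr (P.dir (f 0)) (P.dir (g 0)) := by
      rw [hfd, hgd, cr_refl_refl, ih1, pow_succ]; ring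
    refine ⟨h1, ?_⟩
    have hc : P.pos (g (n + 1)) - P.pos (f (n + 1)) =
        (((g (n + 1)).2.1 - (f (n + 1)).2.1 : ℝ) : ℂ) * P.u (g (n + 1)).1 := by
      unfold Polygon.pos
      rw [e2]; push_cast; ring
    have h2 : cr (P.dir (f (n + 1))) (P.pos (g (n + 1)) - P.pos (f (n + 1))) =
        -cr (P.dir (f n)) (P.pos (g (n + 1)) - P.pos (f (n + 1))) := by
      rw [hc, cr_smul_right, cr_smul_right, hfd, P.cr_refl_u]; ring
    have h3 : P.pos (g (n + 1)) - P.pos (f (n + 1)) =
        (P.pos (g n) - P.pos (f n)) + ((t' : ℂ) * P.dir (g n) - (t : ℂ) * P.dir (f n)) := by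
      rw [hgp, hfp]; ring
    rw [h2, h3, cr_add_right, ih2, cr_sub_right, cr_smul_right, cr_smul_right, cr_self, ih1, hpl,
      pow_succ]
    ring

end Pool.Agent.H4.BN
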