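import Pool.Agent.H79.BN.Targets

/-!
# Transfer of the code from a strip to a ray (row W8)
-/

namespace Pool.Agent.H4.BN

open MeasureTheory Set Filter Topology Pool.Agent.H93.BL Pool.Agent.H79.BN

lemma cr_dir_dir {ι : Type} (P : Polygon ι) (i : ι) (s s' φ φ' : ℝ) :
    cr (P.dir (i, s, φ)) (P.dir (i, s', φ')) = Real.sin (φ' - φ) := by
  have h1 : (P.u i).re * (P.u i).re + (P.u i).im * (P.u i).im = 1 := by
    have := Complex.sq_norm (P.u i)
    rw [P.norm_u i, Complex.normSq_apply] at this; linarith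
  rw [P.dir_eq, P.dir_eq]
  unfold Polygon.n cr
  simp only [Complex.mul_re, Complex.mul_im, Complex.sub_re, Complex.sub_im, Complex.ofReal_re,
    Complex.ofReal_im, Complex.I_re, Complex.I_im, Real.sin_sub]
  linear_combination (Real.sin φ' * Real.cos φ - Real.cos φ' * Real.sin φ) * h1

theorem w8 (h5 : T_W5) (h6 : T_W6) (h7 : T_W7) : T_W8 := by
  intro ι _ P i q a φ φ' κ N g ha hκ hg0 hg hN
  obtain ⟨f, hf0, hf⟩ := hκ q (by simpa using ha)
  have hcφ : 0 < Real.cos φ := by
    have := P.cos_pos_of_phase (hf 0).1.1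
    rw [hf0] at this; exact this
  have hpos0 : P.pos (f 0) = P.pos (g 0) := by rw [hf0, hg0]; rfl
  have hcr0 : |cr (P.dir (f 0)) (P.dir (g 0))| ≤ |φ' - φ| := by
    rw [hf0, hg0, cr_dir_dir]
    exact Real.abs_sin_le_abs
  have key : ∀ n ≤ N, ∀ m ≤ n, (g m).1 = κ m := by
    intro n
    induction n with
    | zero =>
      intro _ m hm
      obtain rfl : m = 0 := by omega
      rw [hg0, ← (hf 0).2, hf0]
    | succ n ih =>
      intro hn m hm
      have ihn := ih (by omega)
      rcases Nat.lt_or_ge m (n + 1) with hlt | hge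
      · exact ihn m (by omega)
      obtain rfl : m = n + 1 := by omega
      have hcode : ∀ m ≤ n, (f m).1 = (g m).1 := fun m hm => by rw [(hf m).2, ihn m hm]
      obtain ⟨w1, w2⟩ := h7 ι P f g n hpos0 (fun m _ => (hf m).1) (fun m _ => hg m) hcode n le_rfl
      obtain ⟨-, -, t', ht', hgp, -, -⟩ := hg n
      have hpl : plen P g (n + 1) = plen P g n + t' := by
        unfold plen
        rw [Finset.sum_range_succ, hgp, dist_eq_norm]
        congr 1
        rw [sub_add_cancel_left, norm_neg, norm_mul, P.norm_dir, mul_one, Complex.norm_real,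
          Real.norm_of_nonneg ht'.le]
      have hplnn : ∀ m, 0 ≤ plen P g m := fun m => Finset.sum_nonneg fun _ _ => dist_nonneg
      have hb : ∀ m ≤ N, plen P g m * |cr (P.dir (f 0)) (P.dir (g 0))| < a * Real.cos φ := by
        intro m hm
        exact lt_of_le_of_lt (mul_le_mul_of_nonneg_left hcr0 (hplnn m)) (hN m hm)
      have habs : ∀ (m : ℕ) (x : ℝ), |(-1 : ℝ) ^ m * x| = |x| := by
        intro m x
        rw [abs_mul, abs_pow, abs_neg, abs_one, one_pow, one_mul]
      have hx1 : |cr (P.dir (f n)) (P.pos (g n) - P.pos (f n))| < a * Real.cos φ := by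
        rw [w2, habs, abs_mul, abs_of_nonneg (hplnn n)]
        exact hb n (by omega)
      have hx2 : |cr (P.dir (f n)) (P.pos (g (n + 1)) - P.pos (f n))| < a * Real.cos φ := by
        have : cr (P.dir (f n)) (P.pos (g (n + 1)) - P.pos (f n)) =
            (-1) ^ n * (plen P g (n + 1) * cr (P.dir (f 0)) (P.dir (g 0))) := by
          rw [hgp, show P.pos (g n) + (t' : ℂ) * P.dir (g n) - P.pos (f n)
            = (P.pos (g n) - P.pos (f n)) + (t' : ℂ) * P.dir (g n) by ring, cr_add_right,
            cr_smul_right, w1, w2, hpl]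
          ring
        rw [this, habs, abs_mul, abs_of_nonneg (hplnn (n + 1))]
        exact hb (n + 1) hn
      have hcn : 0 < Real.cos (f n).2.2 := P.cos_pos_of_phase (hf n).1.1
      have hfn : f n = (κ n, (f n).2.1, (f n).2.2) := by
        rw [← (hf n).2]
      refine h5 ι P (κ n) (κ (n + 1)) (f n).2.1 (f n).2.2 (a * Real.cos φ) (g n) (g (n + 1))
        ?_ (mul_pos ha hcφ) ?_ (ihn n le_rfl) (hg n) ?_ ?_
      · rw [← hfn]; exact (hf n).1.1
      · intro r' hr'
        set r : ℝ := q + (-1) ^ n * ((r' - (f n).2.1) * Real.cos (f n).2.2) / Real.cos φ with hr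
        have hrq : |r - q| < a := by
          rw [hr, add_sub_cancel_left, abs_div, habs, abs_of_pos hcφ, div_lt_iff₀ hcφ]
          exact hr'
        obtain ⟨fr, hfr0, hfr⟩ := hκ r hrq
        obtain ⟨v1, v2⟩ := h6 ι P i r q φ fr f n hfr0 hf0 (fun m _ => (hfr m).1)
          (fun m _ => (hf m).1) (fun m _ => by rw [(hfr m).2, (hf m).2]) n le_rfl
        have v3 : (fr n).2.1 = r' := by
          have e1 : (r - q) * Real.cos φ = (-1) ^ n * ((r' - (f n).2.1) * Real.cos (f n).2.2) := by
            rw [hr, add_sub_cancel_left, div_mul_cancel₀ _ hcφ.ne']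
          have e2 : ((-1 : ℝ) ^ n) * (-1) ^ n = 1 := by
            rw [← mul_pow]; norm_num
          rw [e1, ← mul_assoc, e2, one_mul] at v2
          have := mul_right_cancel₀ hcn.ne' v2
          linarith
        have hfrn : fr n = (κ n, r', (f n).2.2) := by
          rw [← (hfr n).2, ← v3, ← v1]
        refine ⟨fr (n + 1), ?_, (hfr (n + 1)).2⟩
        rw [← hfrn]; exact (hfr n).1
      · rw [← hfn]; exact hx1
      · rw [← hfn]; exact hx2
  intro n hn
  exact key n hn n le_rfl

end Pool.Agent.H4.BN
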